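import Mathlib
import Pool.Agent.W133.DQ.StB

set_option autoImplicit false

open scoped ContDiff
open Set Filter Topology

namespace Pool.Agent.W797.DQ
open Pool.Agent.W133.DQ

/-- directional derivative -/
noncomputable def pd (e : P2) (f : P2 → ℝ) (p : P2) : ℝ := fderiv ℝ f p e

lemma fd_smooth {f : P2 → ℝ} (hf : ContDiff ℝ ∞ f) : ContDiff ℝ ∞ (fderiv ℝ f) :=
  hf.fderiv_right (by simp)

lemma pd_eq (e : P2) (f : P2 → ℝ) :
    pd e f = (ContinuousLinearMap.apply ℝ ℝ e) ∘ (fderiv ℝ f) := by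
  ext p
  rfl

lemma pd_smooth (e : P2) {f : P2 → ℝ} (hf : ContDiff ℝ ∞ f) : ContDiff ℝ ∞ (pd e f) := by
  rw [pd_eq]
  exact (ContinuousLinearMap.contDiff _).comp (fd_smooth hf)

lemma pd_periodic (e : P2) {f : P2 → ℝ} (h : ∀ p : P2, f (p.1 + 1, p.2) = f p) (p : P2) :
    pd e f (p.1 + 1, p.2) = pd e f p := by
  unfold pd
  have h1 : (fun p : P2 => f (p + (1, 0))) = f := by
    ext p
    have := h p
    rw [← this]
    congr 1
    ext <;> simp
  have h2 := fderiv_comp_add_right (𝕜 := ℝ) (f := f) (x := p) (1, 0)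
  rw [h1] at h2
  have e1 : p + (1, 0) = (p.1 + 1, p.2) := by
    ext <;> simp
  rw [h2, e1]

lemma pd_norm (e : P2) (he : ‖e‖ ≤ 1) {f : P2 → ℝ} (hf : ContDiff ℝ ∞ f) (j : ℕ) (p : P2) :
    ‖iteratedFDeriv ℝ j (pd e f) p‖ ≤ ‖iteratedFDeriv ℝ (j + 1) f p‖ := by
  rw [pd_eq]
  have h := ContinuousLinearMap.norm_iteratedFDeriv_comp_left (ContinuousLinearMap.apply ℝ ℝ e)
    (x := p) (n := j) ((fd_smooth hf).contDiffAt) (by exact_mod_cast le_top)
  refine h.trans ?_
  rw [norm_iteratedFDeriv_fderiv]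
  have h1 : ‖(ContinuousLinearMap.apply ℝ ℝ e : (P2 →L[ℝ] ℝ) →L[ℝ] ℝ)‖ ≤ 1 := by
    apply ContinuousLinearMap.opNorm_le_bound _ zero_le_one
    intro L
    rw [ContinuousLinearMap.apply_apply, one_mul]
    calc ‖L e‖ ≤ ‖L‖ * ‖e‖ := L.le_opNorm e
      _ ≤ ‖L‖ * 1 := by gcongr
      _ = ‖L‖ := mul_one _
  calc _ ≤ 1 * ‖iteratedFDeriv ℝ (j + 1) f p‖ := by gcongr
    _ = _ := one_mul _

lemma pd_comm (e e' : P2) {f : P2 → ℝ} (hf : ContDiff ℝ ∞ f) : pd e (pd e' f) = pd e' (pd e f) := by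
  ext p
  have hd : DifferentiableAt ℝ (fderiv ℝ f) p := (fd_smooth hf).contDiffAt.differentiableAt (by simp)
  have key : ∀ a b : P2, pd a (pd b f) p = fderiv ℝ (fderiv ℝ f) p a b := by
    intro a b
    unfold pd
    rw [show (fun q => fderiv ℝ f q b) = (ContinuousLinearMap.apply ℝ ℝ b) ∘ (fderiv ℝ f) from rfl]
    rw [fderiv_comp p (ContinuousLinearMap.differentiableAt _) hd, ContinuousLinearMap.fderiv]
    rfl
  rw [key, key]
  have hs : IsSymmSndFDerivAt ℝ f p := hf.contDiffAt.isSymmSndFDerivAt (by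
      rw [minSmoothness_of_isRCLikeNormedField]
      exact WithTop.coe_le_coe.2 (le_top : (2 : ℕ∞) ≤ ⊤))
  exact hs e e'

lemma split_norm {f : P2 → ℝ} (hf : ContDiff ℝ ∞ f) (j : ℕ) (p : P2) :
    ‖iteratedFDeriv ℝ (j + 1) f p‖ ≤ ‖iteratedFDeriv ℝ j (pd (1, 0) f) p‖
      + ‖iteratedFDeriv ℝ j (pd (0, 1) f) p‖ := by
  rw [← norm_iteratedFDeriv_fderiv]
  set L1 : ℝ →L[ℝ] (P2 →L[ℝ] ℝ) :=
    ContinuousLinearMap.toSpanSingleton ℝ (ContinuousLinearMap.fst ℝ ℝ ℝ) with hL1
  set L2 : ℝ →L[ℝ] (P2 →L[ℝ] ℝ) :=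
    ContinuousLinearMap.toSpanSingleton ℝ (ContinuousLinearMap.snd ℝ ℝ ℝ) with hL2
  have e : fderiv ℝ f = (L1 ∘ pd (1, 0) f) + (L2 ∘ pd (0, 1) f) := by
    ext p
    · simp [hL1, hL2, pd]
    · simp [hL1, hL2, pd]
  have c1 : ContDiff ℝ ∞ (L1 ∘ pd (1, 0) f) := L1.contDiff.comp (pd_smooth _ hf)
  have c2 : ContDiff ℝ ∞ (L2 ∘ pd (0, 1) f) := L2.contDiff.comp (pd_smooth _ hf)
  have hj : ((j : ℕ) : WithTop ℕ∞) ≤ ∞ := by exact_mod_cast le_top
  rw [e, iteratedFDeriv_add_apply (c1.contDiffAt.of_le hj) (c2.contDiffAt.of_le hj)]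
  refine (norm_add_le _ _).trans ?_
  have n1 : ‖L1‖ ≤ 1 := by
    rw [hL1, ContinuousLinearMap.norm_toSpanSingleton]
    exact ContinuousLinearMap.norm_fst_le ℝ ℝ ℝ
  have n2 : ‖L2‖ ≤ 1 := by
    rw [hL2, ContinuousLinearMap.norm_toSpanSingleton]
    exact ContinuousLinearMap.norm_snd_le ℝ ℝ ℝ
  have b1 := L1.norm_iteratedFDeriv_comp_left (x := p) (n := j)
    ((pd_smooth (1, 0) hf).contDiffAt) hj
  have b2 := L2.norm_iteratedFDeriv_comp_left (x := p) (n := j)
    ((pd_smooth (0, 1) hf).contDiffAt) hj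
  have b1' : ‖L1‖ * ‖iteratedFDeriv ℝ j (pd (1, 0) f) p‖ ≤ 1 * ‖iteratedFDeriv ℝ j (pd (1, 0) f) p‖ := by
    gcongr
  have b2' : ‖L2‖ * ‖iteratedFDeriv ℝ j (pd (0, 1) f) p‖ ≤ 1 * ‖iteratedFDeriv ℝ j (pd (0, 1) f) p‖ := by
    gcongr
  linarith

lemma lip_of_NB {f : P2 → ℝ} (hf : ContDiff ℝ ∞ f) {j : ℕ} {M : ℝ} (hM : NB (j + 1) f M) (p q : P2) :
    ‖iteratedFDeriv ℝ j f p - iteratedFDeriv ℝ j f q‖ ≤ M * ‖p - q‖ := by
  apply Convex.norm_image_sub_le_of_norm_fderiv_le (𝕜 := ℝ) (s := Set.univ)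
  · intro x _
    exact (hf.differentiable_iteratedFDeriv (by exact_mod_cast WithTop.coe_lt_top j)) x
  · intro x _
    rw [norm_fderiv_iteratedFDeriv]
    exact hM x
  · exact convex_univ
  · exact mem_univ _
  · exact mem_univ _

lemma lip0 {f : P2 → ℝ} (hf : ContDiff ℝ ∞ f) {M : ℝ} (hM : NB 1 f M) (p q : P2) :
    |f p - f q| ≤ M * ‖p - q‖ := by
  rw [← Real.norm_eq_abs]
  apply Convex.norm_image_sub_le_of_norm_fderiv_le (𝕜 := ℝ) (s := Set.univ)
  · intro x _
    exact hf.contDiffAt.differentiableAt (by simp)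
  · intro x _
    rw [← norm_iteratedFDeriv_one]
    exact hM x
  · exact convex_univ
  · exact mem_univ _
  · exact mem_univ _

lemma NB0 {f : P2 → ℝ} {M : ℝ} : NB 0 f M ↔ ∀ p, |f p| ≤ M := by
  unfold NB
  simp [norm_iteratedFDeriv_zero]

lemma NB_nonneg {f : P2 → ℝ} {j : ℕ} {M : ℝ} (h : NB j f M) : 0 ≤ M :=
  (norm_nonneg _).trans (h 0)

/-- derivatives of periodic functions: bound by the next derivative -/
lemma Aj (j : ℕ) : ∀ (f : P2 → ℝ) (M : ℝ), ContDiff ℝ ∞ f → (∀ p : P2, f (p.1 + 1, p.2) = f p) →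
    NB (j + 1) (pd (1, 0) f) M → NB j (pd (1, 0) f) (2 ^ j * M) := by
  induction j with
  | zero =>
    intro f M hf hper hM
    rw [NB0]
    intro p
    rw [pow_zero, one_mul]
    have hg := pd_smooth (1, 0) hf
    set c := pd (1, 0) f p with hc
    have hline : ∀ t : ℝ, HasDerivAt (fun t : ℝ => f (p.1 + t, p.2)) (pd (1, 0) f (p.1 + t, p.2)) t := by
      intro t
      have h1 : HasDerivAt (fun t : ℝ => ((p.1 + t, p.2) : P2)) (1, 0) t :=
        ((hasDerivAt_id t).const_add p.1).prodMk (hasDerivAt_const t p.2)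
      have h2 : HasFDerivAt f (fderiv ℝ f (p.1 + t, p.2)) (p.1 + t, p.2) :=
        (hf.contDiffAt.differentiableAt (by simp)).hasFDerivAt
      exact h2.comp_hasDerivAt t h1
    have hφ : ∀ t : ℝ, HasDerivAt (fun t : ℝ => f (p.1 + t, p.2) - t * c)
        (pd (1, 0) f (p.1 + t, p.2) - c) t := by
      intro t
      have h3 : HasDerivAt (fun t : ℝ => t * c) c t := by
        simpa using (hasDerivAt_id t).mul_const c
      exact (hline t).sub h3
    have h := norm_image_sub_le_of_norm_deriv_le_segment_01' (f := fun t : ℝ => f (p.1 + t, p.2) - t * c)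
      (f' := fun t => pd (1, 0) f (p.1 + t, p.2) - c) (C := M)
      (fun t _ => (hφ t).hasDerivWithinAt) (by
        intro t ht
        have := lip0 hg hM (p.1 + t, p.2) p
        rw [Real.norm_eq_abs]
        refine this.trans ?_
        have hn : ‖((p.1 + t, p.2) : P2) - p‖ ≤ 1 := by
          rw [Prod.norm_def]
          simp only [Prod.fst_sub, Prod.snd_sub, add_sub_cancel_left, sub_self, norm_zero]
          rw [Real.norm_eq_abs, abs_of_nonneg ht.1]
          exact max_le ht.2.le zero_le_one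
        calc M * ‖((p.1 + t, p.2) : P2) - p‖ ≤ M * 1 := by
              have := NB_nonneg hM
              gcongr
          _ = M := mul_one M)
    simp only [one_mul, add_zero, zero_mul, sub_zero] at h
    rw [hper p] at h
    have e : f p - c - f (p.1, p.2) = -c := by
      rw [show ((p.1, p.2) : P2) = p from rfl]
      ring
    rw [e, norm_neg, Real.norm_eq_abs] at h
    exact h
  | succ j ih =>
    intro f M hf hper hM p
    have h1 := split_norm (pd_smooth (1, 0) hf) j p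
    have hx : NB j (pd (1, 0) (pd (1, 0) f)) (2 ^ j * M) := by
      apply ih (pd (1, 0) f) M (pd_smooth _ hf) (pd_periodic _ hper)
      intro q
      exact (pd_norm (1, 0) (by simp [Prod.norm_def]) (pd_smooth _ hf) (j + 1) q).trans (hM q)
    have hy : NB j (pd (0, 1) (pd (1, 0) f)) (2 ^ j * M) := by
      rw [pd_comm _ _ hf]
      apply ih (pd (0, 1) f) M (pd_smooth _ hf) (pd_periodic _ hper)
      intro q
      rw [pd_comm _ _ hf]
      exact (pd_norm (0, 1) (by simp [Prod.norm_def]) (pd_smooth _ hf) (j + 1) q).trans (hM q)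
    have := hx p
    have := hy p
    have e : (2 : ℝ) ^ (j + 1) * M = 2 ^ j * M + 2 ^ j * M := by ring
    rw [e]
    linarith

lemma per_int {f : P2 → ℝ} (h : ∀ p : P2, f (p.1 + 1, p.2) = f p) (p : P2) :
    f p = f (Int.fract p.1, p.2) := by
  have hper : Function.Periodic (fun x : ℝ => f (x, p.2)) 1 := fun x => h (x, p.2)
  have := hper.sub_int_mul_eq ⌊p.1⌋ (x := p.1)
  simp only [mul_one] at this
  rw [Int.fract]
  exact this.symm

lemma Cj (j : ℕ) : ∀ (f : P2 → ℝ) (M : ℝ), ContDiff ℝ ∞ f → (∀ p : P2, f (p.1 + 1, p.2) = f p) →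
    (∀ y : ℝ, f (0, y) = 0) → NB (j + 1) f M → NB j f (4 ^ (j + 1) * M) := by
  induction j with
  | zero =>
    intro f M hf hper h0 hM
    rw [NB0]
    intro p
    have hM0 := NB_nonneg hM
    rw [per_int hper p]
    have h := lip0 hf hM (Int.fract p.1, p.2) (0, p.2)
    rw [h0, sub_zero] at h
    have hn : ‖((Int.fract p.1, p.2) : P2) - (0, p.2)‖ ≤ 1 := by
      rw [Prod.norm_def]
      simp only [Prod.fst_sub, Prod.snd_sub, sub_zero, sub_self, norm_zero]
      rw [Real.norm_eq_abs, abs_of_nonneg (Int.fract_nonneg _)]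
      exact max_le (Int.fract_lt_one _).le zero_le_one
    calc _ ≤ M * ‖((Int.fract p.1, p.2) : P2) - (0, p.2)‖ := h
      _ ≤ M * 1 := by gcongr
      _ ≤ 4 ^ (0 + 1) * M := by
        norm_num
        linarith
  | succ j ih =>
    intro f M hf hper h0 hM p
    have hM0 := NB_nonneg hM
    have h1 := split_norm hf j p
    have hx : NB j (pd (1, 0) f) (2 ^ j * M) := by
      apply Aj j f M hf hper
      intro q
      exact (pd_norm (1, 0) (by simp [Prod.norm_def]) hf (j + 1) q).trans (hM q)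
    have hy : NB j (pd (0, 1) f) (4 ^ (j + 1) * M) := by
      apply ih (pd (0, 1) f) M (pd_smooth _ hf) (pd_periodic _ hper)
      · intro y
        have h2 : HasDerivAt (fun t : ℝ => f (0, t)) (fderiv ℝ f (0, y) (0, 1)) y := by
          have h3 : HasDerivAt (fun t : ℝ => ((0, t) : P2)) (0, 1) y :=
            (hasDerivAt_const y (0 : ℝ)).prodMk (hasDerivAt_id y)
          have h4 : HasFDerivAt f (fderiv ℝ f (0, y)) (0, y) :=
            (hf.contDiffAt.differentiableAt (by simp)).hasFDerivAt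
          exact h4.comp_hasDerivAt y h3
        have h5 : (fun t : ℝ => f (0, t)) = fun _ => 0 := by
          ext t
          exact h0 t
        rw [h5] at h2
        exact h2.unique (hasDerivAt_const y (0 : ℝ))
      · intro q
        exact (pd_norm (0, 1) (by simp [Prod.norm_def]) hf (j + 1) q).trans (hM q)
    have ha := hx p
    have hb := hy p
    have h2 : (2 : ℝ) ^ j ≤ 4 ^ (j + 1) := by
      calc (2 : ℝ) ^ j ≤ 4 ^ j := by gcongr; norm_num
        _ ≤ 4 ^ (j + 1) := by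
          apply pow_le_pow_right₀ (by norm_num)
          omega
    have h3 : (2 : ℝ) ^ j * M ≤ 4 ^ (j + 1) * M := by gcongr
    have e : (4 : ℝ) ^ (j + 1 + 1) * M = 4 * (4 ^ (j + 1) * M) := by ring
    rw [e]
    have h4 : 0 ≤ (4 : ℝ) ^ (j + 1) * M := by positivity
    linarith

lemma zero_far {u : P2 → ℝ} {B : ℝ} (h : SuppBox 1 B u) (j : ℕ) {p : P2} (hp : 1 < |p.1|) :
    iteratedFDeriv ℝ j u p = 0 := by
  have hev : u =ᶠ[𝓝 p] (fun _ => 0) := by
    have : ∀ᶠ q in 𝓝 p, 1 < |q.1| := by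
      have hc : Continuous (fun q : P2 => |q.1|) := by fun_prop
      exact Filter.Tendsto.eventually_const_lt hp hc.continuousAt
    filter_upwards [this] with q hq
    exact h q (Or.inl hq.le)
  have h1 := (Filter.EventuallyEq.iteratedFDeriv ℝ hev j).self_of_nhds
  rw [h1, iteratedFDeriv_fun_zero]
  rfl

theorem poin : S_POIN := by
  refine ⟨?_, ?_, ?_⟩
  · intro u B j M hu hs hM p
    have hM0 := NB_nonneg hM
    rcases le_or_gt |p.1| 1 with h | h
    · -- compare with a point far away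
      rw [abs_le] at h
      obtain ⟨q, hq, hd⟩ : ∃ q : P2, 1 < |q.1| ∧ ‖p - q‖ ≤ 2 := by
        rcases le_total p.1 0 with h0 | h0
        · refine ⟨(-2, p.2), by norm_num, ?_⟩
          rw [Prod.norm_def]
          simp only [Prod.fst_sub, Prod.snd_sub, sub_self, norm_zero]
          rw [Real.norm_eq_abs, abs_of_nonneg (by linarith)]
          exact max_le (by linarith) (by norm_num)
        · refine ⟨(2, p.2), by norm_num, ?_⟩
          rw [Prod.norm_def]
          simp only [Prod.fst_sub, Prod.snd_sub, sub_self, norm_zero]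
          rw [Real.norm_eq_abs, abs_of_nonpos (by linarith)]
          exact max_le (by linarith) (by norm_num)
      have hl := lip_of_NB hu hM p q
      rw [zero_far hs j hq, sub_zero] at hl
      calc _ ≤ M * ‖p - q‖ := hl
        _ ≤ M * 2 := by gcongr
        _ = 2 * M := by ring
    · rw [zero_far hs j h, norm_zero]
      positivity
  · intro f j M hf hper h0 hM
    exact Cj j f M hf hper h0 hM
  · intro f j M hf hM p
    have hM0 := NB_nonneg hM
    set π : P2 →L[ℝ] P2 := ContinuousLinearMap.prod 0 (ContinuousLinearMap.snd ℝ ℝ ℝ) with hπ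
    have e : strip f = f - (f ∘ π) := by
      ext q
      simp [strip, hπ]
    have hj : ((j : ℕ) : WithTop ℕ∞) ≤ ∞ := by exact_mod_cast le_top
    have c2 : ContDiff ℝ ∞ (f ∘ π) := hf.comp π.contDiff
    rw [e, iteratedFDeriv_sub_apply (hf.contDiffAt.of_le hj) (c2.contDiffAt.of_le hj)]
    refine (norm_sub_le _ _).trans ?_
    have hπn : ‖π‖ ≤ 1 := by
      apply ContinuousLinearMap.opNorm_le_bound _ zero_le_one
      intro q
      rw [one_mul, Prod.norm_def, Prod.norm_def]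
      simp [hπ]
    have h2 : ‖iteratedFDeriv ℝ j (f ∘ π) p‖ ≤ M := by
      rw [π.iteratedFDeriv_comp_right hf p hj]
      refine (ContinuousMultilinearMap.norm_compContinuousLinearMap_le _ _).trans ?_
      calc ‖iteratedFDeriv ℝ j f (π p)‖ * ∏ _i : Fin j, ‖π‖ ≤ M * 1 := by
            apply mul_le_mul (hM _) _ (by positivity) hM0
            apply Finset.prod_le_one
            · intro i _
              positivity
            · intro i _
              exact hπn
        _ = M := mul_one M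
    have := hM p
    linarith

end Pool.Agent.W797.DQ
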